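import Pool.Agent.H34.GA.Targets1

/-!
Row CIF of the board gaa_modules (MP_52e316_nt): the infinitesimal character of the coefficient
function (helper8).
-/

set_option autoImplicit false

namespace Pool.Agent.H8.GA

open MeasureTheory Pool.Agent.H34.GM Pool.Agent.H34.GZ Pool.Agent.H34.GU Pool.Agent.H34.GA

/-- the determinant is continuous -/
theorem cont_det {m : ℕ} : Continuous (fun z : V m => (mt z).det) :=
  Continuous.matrix_det (continuous_matrix fun i j => by
    change Continuous (fun z : V m => z i j)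
    fun_prop)

open Classical in
/-- a function on the invertible matrices extended by zero -/
noncomputable def Ft {m : ℕ} (f : Mat m → ℂ) : V m → ℂ :=
  {z : V m | (mt z).det ≠ 0}.piecewise (fun z => f (mt z)) (fun _ => 0)

theorem Ft_of {m : ℕ} (f : Mat m → ℂ) (z : V m) (h : (mt z).det ≠ 0) : Ft f z = f (mt z) := by
  classical
  exact Set.piecewise_eq_of_mem {z : V m | (mt z).det ≠ 0} _ _ h

theorem Ft_bd {m : ℕ} (f : Mat m → ℂ) (B : ℝ) (hB0 : 0 ≤ B) (hB : ∀ g, g.det ≠ 0 → ‖f g‖ ≤ B)
    (z : V m) : ‖Ft f z‖ ≤ B := by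
  classical
  by_cases h : (mt z).det ≠ 0
  · rw [Ft_of f z h]
    exact hB _ h
  · have h1 : Ft f z = 0 := Set.piecewise_eq_of_notMem {z : V m | (mt z).det ≠ 0} _ _ h
    rw [h1, norm_zero]
    exact hB0

theorem Ft_meas {m : ℕ} (f : Mat m → ℂ) (hf : ContinuousOn f {g | g.det ≠ 0}) :
    Measurable (Ft f) := by
  classical
  have hs : MeasurableSet {z : V m | (mt z).det ≠ 0} :=
    (isOpen_ne_fun cont_det continuous_const).measurableSet
  have hc : ContinuousOn (fun z : V m => f (mt z)) {z : V m | (mt z).det ≠ 0} := by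
    have h1 : Continuous (fun z : V m => mt z) := continuous_matrix fun i j => by
      change Continuous (fun z : V m => z i j)
      fun_prop
    exact hf.comp h1.continuousOn fun z hz => hz
  exact ContinuousOn.measurable_piecewise hc continuousOn_const hs

/-- the product `g z⁻¹` is measurable -/
theorem meas_mi (hMSR : T_MSR) {m : ℕ} : Measurable (fun p : V m × V m =>
    ((fun i j => (mt p.2 * (mt p.1)⁻¹) i j) : V m)) := by
  have h1 : Measurable (fun z : V m => ((fun i j => ((mt z)⁻¹) i j) : V m)) := (hMSR.1 m).1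
  refine measurable_pi_iff.mpr fun i => measurable_pi_iff.mpr fun j => ?_
  simp only [Matrix.mul_apply]
  refine Finset.measurable_sum _ fun l _ => Measurable.mul ?_ ?_
  · change Measurable (fun p : V m × V m => p.2 i l)
    fun_prop
  · have h2 : Measurable (fun z : V m => ((mt z)⁻¹) l j) :=
      (measurable_pi_apply j).comp ((measurable_pi_apply l).comp h1)
    exact h2.comp measurable_fst

/-- Fubini for the coefficient function -/
theorem c1_fub (hMSR : T_MSR) {m N : ℕ} [NeZero N] (D : Set (V m)) (hD : MeasurableSet D)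
    (hDf : hm m D < ⊤) (hDd : ∀ z ∈ D, (mt z).det ≠ 0) (F : Mat m → VN m N → ℂ)
    (hF : ∀ x, ContinuousOn (fun g => F g x) {g | g.det ≠ 0}) (B : ℝ) (hB0 : 0 ≤ B)
    (hB : ∀ g x, g.det ≠ 0 → ‖F g x‖ ≤ B) (K : V m → ℂ) (hK : Integrable K (hm m))
    (h0 : ∀ z, (mt z).det = 0 → K z = 0) :
    ∫ z : V m, K z * c1 D F (mt z) ∂(hm m) =
      ∑ x, ∫ (g : V m) in D, (∫ z : V m, K z * F ((mt g : Mat m) * (mt z)⁻¹) x ∂(hm m)) *
        (starRingEnd ℂ) (F (mt g) x) ∂(hm m) := by
  have hsf : SigmaFinite (hm m) := (hMSR.1 m).2.2.2.2.1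
  have hfin : IsFiniteMeasure ((hm m).restrict D) := ⟨by
    rw [Measure.restrict_apply_univ]
    exact hDf⟩
  have hdet : ∀ g z : V m, (mt g).det ≠ 0 → (mt z).det ≠ 0 →
      (Matrix.of (fun i j => ((mt g : Mat m) * (mt z)⁻¹) i j) : Mat m).det ≠ 0 := by
    intro g z hg hz
    change ((mt g : Mat m) * (mt z)⁻¹).det ≠ 0
    rw [Matrix.det_mul]
    refine mul_ne_zero hg ?_
    rw [Matrix.det_nonsing_inv, Ring.inverse_eq_inv']
    exact inv_ne_zero hz
  have hint : ∀ x, Integrable (Function.uncurry fun (z g : V m) => K z *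
      (Ft (fun h => F h x) (fun i j => (mt g * (mt z)⁻¹) i j) *
        (starRingEnd ℂ) (Ft (fun h => F h x) g))) ((hm m).prod ((hm m).restrict D)) := by
    intro x
    have h1 : Integrable (fun p : V m × V m => ‖K p.1‖ * (B * B))
        ((hm m).prod ((hm m).restrict D)) :=
      Integrable.mul_prod (f := fun z => ‖K z‖) (g := fun _ : V m => B * B) hK.norm
        (integrable_const _)
    refine h1.mono' ?_ ?_
    · refine AEStronglyMeasurable.mul ?_ ?_
      · exact hK.aestronglyMeasurable.comp_fst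
      · refine Measurable.aestronglyMeasurable ?_
        have h2 := Ft_meas (fun h => F h x) (hF x)
        exact (h2.comp (meas_mi hMSR)).mul
          (Complex.continuous_conj.measurable.comp (h2.comp measurable_snd))
    · refine Filter.Eventually.of_forall fun p => ?_
      change ‖K p.1 * (Ft (fun h => F h x) (fun i j => (mt p.2 * (mt p.1)⁻¹) i j) *
        (starRingEnd ℂ) (Ft (fun h => F h x) p.2))‖ ≤ _
      rw [norm_mul, norm_mul, RCLike.norm_conj]
      refine mul_le_mul_of_nonneg_left ?_ (norm_nonneg _)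
      exact mul_le_mul (Ft_bd _ B hB0 (fun g hg => hB g x hg) _)
        (Ft_bd _ B hB0 (fun g hg => hB g x hg) _) (norm_nonneg _) hB0
  calc ∫ z : V m, K z * c1 D F (mt z) ∂(hm m)
      = ∫ z : V m, ∑ x, ∫ g in D, K z *
        (Ft (fun h => F h x) (fun i j => (mt g * (mt z)⁻¹) i j) *
          (starRingEnd ℂ) (Ft (fun h => F h x) g)) ∂(hm m) ∂(hm m) := by
        refine integral_congr_ae (Filter.Eventually.of_forall fun z => ?_)
        change K z * c1 D F (mt z) = ∑ x, ∫ g in D, K z *
          (Ft (fun h => F h x) (fun i j => (mt g * (mt z)⁻¹) i j) *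
            (starRingEnd ℂ) (Ft (fun h => F h x) g)) ∂(hm m)
        by_cases hz : (mt z).det = 0
        · rw [h0 z hz]
          simp
        · unfold c1
          rw [Finset.mul_sum]
          refine Finset.sum_congr rfl fun x _ => ?_
          rw [← integral_const_mul]
          refine setIntegral_congr_fun hD fun g hg => ?_
          have hg' := hDd g hg
          change K z * (F (mt g * (mt z)⁻¹) x * (starRingEnd ℂ) (F (mt g) x)) = _
          rw [Ft_of _ _ (hdet g z hg' hz), Ft_of _ _ hg']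
          rfl
    _ = ∑ x, ∫ z : V m, ∫ g in D, K z *
        (Ft (fun h => F h x) (fun i j => (mt g * (mt z)⁻¹) i j) *
          (starRingEnd ℂ) (Ft (fun h => F h x) g)) ∂(hm m) ∂(hm m) :=
        integral_finsetSum _ fun x _ => (hint x).integral_prod_left
    _ = ∑ x, ∫ g in D, ∫ z : V m, K z *
        (Ft (fun h => F h x) (fun i j => (mt g * (mt z)⁻¹) i j) *
          (starRingEnd ℂ) (Ft (fun h => F h x) g)) ∂(hm m) ∂(hm m) :=
        Finset.sum_congr rfl fun x _ => integral_integral_swap (hint x)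
    _ = _ := by
        refine Finset.sum_congr rfl fun x _ => ?_
        refine setIntegral_congr_fun hD fun g hg => ?_
        have hg' := hDd g hg
        change ∫ z : V m, K z *
          (Ft (fun h => F h x) (fun i j => (mt g * (mt z)⁻¹) i j) *
            (starRingEnd ℂ) (Ft (fun h => F h x) g)) ∂(hm m) =
          (∫ z : V m, K z * F (mt g * (mt z)⁻¹) x ∂(hm m)) * (starRingEnd ℂ) (F (mt g) x)
        rw [← integral_mul_const]
        refine integral_congr_ae (Filter.Eventually.of_forall fun z => ?_)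
        change K z * (Ft (fun h => F h x) (fun i j => (mt g * (mt z)⁻¹) i j) *
            (starRingEnd ℂ) (Ft (fun h => F h x) g)) =
          K z * F (mt g * (mt z)⁻¹) x * (starRingEnd ℂ) (F (mt g) x)
        by_cases hz : (mt z).det = 0
        · rw [h0 z hz]
          simp
        · rw [Ft_of _ _ (hdet g z hg' hz), Ft_of _ _ hg']
          exact (mul_assoc _ _ _).symm

/-- the kernels are integrable -/
theorem int_ker {m : ℕ} (Φ : Mat m → ℂ) (hΦ : Tg m Φ) (w : ℂ) (k : ℕ) :
    Integrable (fun z : V m => Φ (mt z) * (((mt z).det : ℝ) : ℂ) ^ k *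
      ((|(mt z).det| : ℝ) : ℂ) ^ w) (hm m) := by
  obtain ⟨c, hc, hs⟩ := hΦ.supp
  set S : Set (V m) := Metric.closedBall (0 : V m) c ∩ {z : V m | c⁻¹ ≤ |(mt z).det|} with hS
  have hcl : IsClosed {z : V m | c⁻¹ ≤ |(mt z).det|} :=
    isClosed_le continuous_const (cont_det.abs)
  have hcomp : IsCompact S := (isCompact_closedBall (0 : V m) c).inter_right hcl
  have hSm : MeasurableSet S := hcomp.isClosed.measurableSet
  have hmt : Continuous (fun z : V m => mt z) := continuous_matrix fun i j => by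
    change Continuous (fun z : V m => z i j)
    fun_prop
  have hcont : ContinuousOn (fun z : V m => Φ (mt z) * (((mt z).det : ℝ) : ℂ) ^ k *
      ((|(mt z).det| : ℝ) : ℂ) ^ w) S := by
    refine ContinuousOn.mul ?_ ?_
    · refine Continuous.continuousOn ?_
      exact (hΦ.cont.comp hmt).mul ((Complex.continuous_ofReal.comp cont_det).pow k)
    · refine ContinuousOn.cpow_const ?_ ?_
      · exact (Complex.continuous_ofReal.comp cont_det.abs).continuousOn
      · intro z hz
        have h1 : 0 < |(mt z).det| := lt_of_lt_of_le (inv_pos.mpr hc) hz.2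
        exact Or.inl (by simpa using h1)
  obtain ⟨M, hM⟩ := hcomp.exists_bound_of_continuousOn hcont
  have hfin : hm m S < ⊤ := by
    unfold hm
    rw [withDensity_apply _ hSm]
    calc ∫⁻ z in S, ENNReal.ofReal ((|(mt z).det| ^ m)⁻¹) ∂volume
        ≤ ∫⁻ _z in S, ENNReal.ofReal (c ^ m) ∂volume := by
          refine setLIntegral_mono' hSm fun z hz => ?_
          refine ENNReal.ofReal_le_ofReal ?_
          have h1 : c⁻¹ ≤ |(mt z).det| := hz.2
          have h2 : 0 < c⁻¹ := inv_pos.mpr hc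
          rw [← inv_pow]
          refine pow_le_pow_left₀ (by positivity) ?_ m
          rw [inv_le_comm₀ (lt_of_lt_of_le h2 h1) hc]
          exact h1
      _ < ⊤ := by
          rw [setLIntegral_const]
          exact ENNReal.mul_lt_top ENNReal.ofReal_lt_top hcomp.measure_lt_top
  have hsup : Function.support (fun z : V m => Φ (mt z) * (((mt z).det : ℝ) : ℂ) ^ k *
      ((|(mt z).det| : ℝ) : ℂ) ^ w) ⊆ S := by
    intro z hz
    have h1 : Φ (mt z) ≠ 0 := by
      intro h
      exact hz (by simp [h])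
    obtain ⟨h2, h3⟩ := hs _ h1
    refine ⟨?_, h3⟩
    rw [mem_closedBall_zero_iff]
    exact h2
  rw [← integrableOn_iff_integrable_of_support_subset hsup]
  have hfm : IsFiniteMeasure ((hm m).restrict S) := ⟨by
    rw [Measure.restrict_apply_univ]
    exact hfin⟩
  exact (integrable_const M).mono' (hcont.aestronglyMeasurable hSm)
    ((ae_restrict_iff' hSm).mpr (Filter.Eventually.of_forall fun z hz => hM z hz))

theorem pf_CIF (hMSR : T_MSR) (hVLM : T_VLM) (hTEU : T_TEU) : T_CIF := by
  intro m N _ T D hS F lam mu hC Φ hΦ s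
  have hm1 := hS.one_le
  obtain ⟨B, hB⟩ := hC.bdd
  obtain ⟨C, K0, -, hV⟩ := hVLM m hm1
  have hDf : hm m D < ⊤ := lt_of_le_of_lt (hV D hS.dom).1 ENNReal.ofReal_lt_top
  have hDd : ∀ z ∈ D, (mt z).det ≠ 0 := by
    intro z hz h0
    have h2 := (hS.dom.shell z hz).1
    unfold aN at h2
    rw [h0, abs_zero, Real.zero_rpow] at h2
    · linarith
    · have : (0 : ℝ) < m := by exact_mod_cast hm1
      positivity
  have hBB : ∀ g x, g.det ≠ 0 → ‖F g x‖ ≤ max B 0 := fun g x hg => (hB g x hg).trans (le_max_left _ _)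
  have hT := hTEU m hm1 Φ hΦ
  have hz0 : ∀ Ψ : Mat m → ℂ, Tg m Ψ → ∀ z : V m, (mt z).det = 0 → Ψ (mt z) = 0 := by
    intro Ψ hΨ z hz
    by_contra h
    obtain ⟨c, hc, hs⟩ := hΨ.supp
    have h1 := (hs _ h).2
    rw [hz, abs_zero] at h1
    have := inv_pos.mpr hc
    linarith
  have h1 := c1_fub hMSR D hS.dom.meas hDf hDd F hC.cont (max B 0) (le_max_right _ _) hBB
    (fun z : V m => dD Φ (mt z) * (((mt z).det : ℝ) : ℂ) ^ 1 *
      ((|(mt z).det| : ℝ) : ℂ) ^ (s + ((m : ℂ) - 1) / 2))
    (int_ker (dD Φ) hT.2.2.1.toTg _ 1)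
    (fun z hz => by rw [hz0 _ hT.2.2.1.toTg z hz]; simp)
  have h2 := c1_fub hMSR D hS.dom.meas hDf hDd F hC.cont (max B 0) (le_max_right _ _) hBB
    (fun z : V m => Φ (mt z) * (((mt z).det : ℝ) : ℂ) ^ 0 *
      ((|(mt z).det| : ℝ) : ℂ) ^ (s + ((m : ℂ) - 1) / 2))
    (int_ker Φ hΦ.toTg _ 0)
    (fun z hz => by rw [hz0 _ hΦ.toTg z hz]; simp)
  simp only [pow_one] at h1
  simp only [pow_zero, mul_one] at h2
  rw [h1, h2, Finset.mul_sum]
  refine Finset.sum_congr rfl fun x _ => ?_
  rw [← integral_const_mul]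
  refine setIntegral_congr_fun hS.dom.meas fun g hg => ?_
  change (∫ z : V m, dD Φ (mt z) * (((mt z).det : ℝ) : ℂ) *
      ((|(mt z).det| : ℝ) : ℂ) ^ (s + ((m : ℂ) - 1) / 2) * F (mt g * (mt z)⁻¹) x ∂(hm m)) *
      (starRingEnd ℂ) (F (mt g) x) =
    (-1) ^ m * (∏ j, (s - mu j)) * ((∫ z : V m, Φ (mt z) *
      ((|(mt z).det| : ℝ) : ℂ) ^ (s + ((m : ℂ) - 1) / 2) * F (mt g * (mt z)⁻¹) x ∂(hm m)) *
      (starRingEnd ℂ) (F (mt g) x))
  rw [hC.inf Φ hΦ s (mt g) x (hDd g hg), mul_assoc]

end Pool.Agent.H8.GA
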